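import Pool.Agent.Lib.P71954f.Main

/-!
# Every `5`-strongly vertex-connected digraph has two internally disjoint dipaths in each direction

The digraphs are Mathlib's `Digraph`s on a finite vertex set (two opposite arcs are allowed; loops are
allowed too and play no role).  A dipath is given by the list of its vertices.
-/

set_option autoImplicit false

namespace Pool.Agent.Results.MP_71954f_co.FiveStrong

/-- `l` is the list of the vertices of a dipath of `D` from `x` to `y`: distinct vertices, the first one is
`x`, the last one is `y`, and there is an arc from every vertex of the list to the next one. -/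
def IsDipath {V : Type*} (D : Digraph V) (x y : V) (l : List V) : Prop :=
  l.head? = some x ∧ l.getLast? = some y ∧ l.IsChain D.Adj ∧ l.Nodup

/-- `D - S` is strongly connected: any two vertices outside `S` are joined by a directed walk outside `S`. -/
def StronglyConnectedOutside {V : Type*} (D : Digraph V) (S : Set V) : Prop :=
  ∀ u v : V, u ∉ S → v ∉ S → Relation.ReflTransGen (fun a b => D.Adj a b ∧ a ∉ S ∧ b ∉ S) u v

/-- `D` is `K`-strongly vertex-connected: it has more than `K` vertices and `D - S` is strongly connected for
every set `S` of fewer than `K` vertices. -/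
def IsStronglyVertexConnected {V : Type*} (K : ℕ) (D : Digraph V) : Prop :=
  K < Nat.card V ∧ ∀ S : Set V, S.ncard < K → StronglyConnectedOutside D S

/-- The constant `K = 5` has the required property: every finite `5`-strongly vertex-connected digraph has two
distinct vertices `x`, `y` and four different dipaths, two from `x` to `y` and two from `y` to `x`, any two of
which have no vertex except `x` and `y` in common. -/
theorem result {V : Type*} [Finite V] (D : Digraph V) (hD : IsStronglyVertexConnected 5 D) :
    ∃ x y : V, x ≠ y ∧ ∃ P : Fin 4 → List V, Function.Injective P ∧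
      IsDipath D x y (P 0) ∧ IsDipath D x y (P 1) ∧ IsDipath D y x (P 2) ∧ IsDipath D y x (P 3) ∧
      ∀ i j : Fin 4, i ≠ j → ∀ w : V, w ∈ P i → w ∈ P j → w = x ∨ w = y := by
  classical
  haveI := Fintype.ofFinite V
  have hcard : 5 < Fintype.card V := by
    rw [← Nat.card_eq_fintype_card]
    exact hD.1
  have hs : P71954f.Strong (fun p q => D.Adj p q ∧ p ≠ q) 5 := by
    intro S hS a ha b hb
    have h1 := hD.2 (↑S : Set V) (by rw [Set.ncard_coe_finset]; exact hS) a b (by simpa using ha)
      (by simpa using hb)
    refine Relation.ReflTransGen.head_induction_on (motive := fun p _ =>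
      P71954f.RS (fun p q => D.Adj p q ∧ p ≠ q) (↑S : Set V)ᶜ p b) h1 ?_ ?_
    · exact P71954f.RS.refl (by simpa using hb)
    · intro p q hpq _ ih
      by_cases h : p = q
      · rw [h]
        exact ih
      · exact P71954f.RS.head hpq.2.1 ⟨hpq.1, h⟩ ih
  obtain ⟨x, y, hxy⟩ := P71954f.exists_TT hcard (fun v hv => hv.2 rfl) hs
  obtain ⟨P₁, P₂, Q₁, Q₂, ⟨a1, a2, a3, a4⟩, ⟨b1, b2, b3, b4⟩, ⟨c1, c2, c3, c4⟩, ⟨d1, d2, d3, d4⟩,
    hP, hQ, e1, e2, e3, e4, e5, e6⟩ := P71954f.lists_of_TT D hxy
  have hch : ∀ l : List V,
      (∀ (i : ℕ) (a b : V), l[i]? = some a → l[i+1]? = some b → D.Adj a b) → l.IsChain D.Adj := by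
    intro l hl
    rw [List.isChain_iff_getElem]
    intro i hi
    exact hl i _ _ (List.getElem?_eq_getElem (by omega)) (List.getElem?_eq_getElem hi)
  have hne : ∀ {l l' : List V}, l.head? = some x → l'.head? = some y → l ≠ l' := by
    intro l l' h h' e
    rw [e, h'] at h
    exact hxy.1 (Option.some.inj h).symm
  refine ⟨x, y, hxy.1, ![P₁, P₂, Q₁, Q₂], ?_, ⟨a2, a3, hch _ a4, a1⟩, ⟨b2, b3, hch _ b4, b1⟩,
    ⟨c2, c3, hch _ c4, c1⟩, ⟨d2, d3, hch _ d4, d1⟩, ?_⟩
  · intro i j hij
    fin_cases i <;> fin_cases j <;> first
      | rfl
      | exact absurd hij hP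
      | exact absurd hij hP.symm
      | exact absurd hij hQ
      | exact absurd hij hQ.symm
      | exact absurd hij (hne a2 c2)
      | exact absurd hij (hne a2 d2)
      | exact absurd hij (hne b2 c2)
      | exact absurd hij (hne b2 d2)
      | exact absurd hij (hne a2 c2).symm
      | exact absurd hij (hne a2 d2).symm
      | exact absurd hij (hne b2 c2).symm
      | exact absurd hij (hne b2 d2).symm
  · intro i j hij w hi hj
    fin_cases i <;> fin_cases j <;> first
      | exact absurd rfl hij
      | exact e1 w hi hj
      | exact e1 w hj hi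
      | exact e2 w hi hj
      | exact e2 w hj hi
      | exact e3 w hi hj
      | exact e3 w hj hi
      | exact e4 w hi hj
      | exact e4 w hj hi
      | exact e5 w hi hj
      | exact e5 w hj hi
      | exact e6 w hi hj
      | exact e6 w hj hi

end Pool.Agent.Results.MP_71954f_co.FiveStrong
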